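import Mathlib

set_option autoImplicit false

/-!
# MP_741d9e_co: sequences with monochromatic differences and products are 2-adically confined

For every `B` there is a finite colouring of `ℕ` such that a strictly increasing sequence of
positive integers with `a_m - a_n` and `a_n a_m` of equal colour for all `n < m` has bounded
2-adic valuations, and all but finitely many of its terms have `q`-adic valuation above `B` for
every prime `q ≤ B`.
-/

open Filter

namespace Pool.Agent.Results.MP_741d9e_co.TwoAdicBounded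

lemma dvd_iff {x k : ℕ} (hx : x ≠ 0) : 2 ^ k ∣ x ↔ k ≤ padicValNat 2 x :=
  padicValNat_dvd_iff_le hx

lemma v_eq {x k : ℕ} (hx : x ≠ 0) (h1 : 2 ^ k ∣ x) (h2 : ¬ 2 ^ (k + 1) ∣ x) : padicValNat 2 x = k := by
  rw [dvd_iff hx] at h1 h2
  omega

lemma v_add {a b : ℕ} (ha : 0 < a) (hb : 0 < b) (h : padicValNat 2 a < padicValNat 2 b) : padicValNat 2 (a + b) = padicValNat 2 a := by
  refine v_eq (by omega) ?_ ?_
  · exact dvd_add ((dvd_iff ha.ne').2 le_rfl) ((dvd_iff hb.ne').2 h.le)
  · intro hd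
    have hb' : 2 ^ (padicValNat 2 a + 1) ∣ b := (dvd_iff hb.ne').2 h
    have := (Nat.dvd_add_left hb').1 hd
    rw [dvd_iff ha.ne'] at this
    omega

lemma v_sub {a b : ℕ} (ha : 0 < a) (hab : a < b) (h : padicValNat 2 a < padicValNat 2 b) : padicValNat 2 (b - a) = padicValNat 2 a := by
  have hb : 0 < b := by omega
  refine v_eq (by omega) ?_ ?_
  · exact Nat.dvd_sub ((dvd_iff hb.ne').2 h.le) ((dvd_iff ha.ne').2 le_rfl)
  · intro hd
    have hb' : 2 ^ (padicValNat 2 a + 1) ∣ b := (dvd_iff hb.ne').2 h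
    have : 2 ^ (padicValNat 2 a + 1) ∣ a := by
      have h3 := Nat.dvd_sub hb' hd
      rwa [Nat.sub_sub_self hab.le] at h3
    rw [dvd_iff ha.ne'] at this
    omega

lemma v_cong {a b k : ℕ} (ha : 0 < a) (h : padicValNat 2 a = k) (hm : a % 2 ^ (k + 2) = b % 2 ^ (k + 2)) :
    padicValNat 2 (a + b) = k + 1 := by
  obtain ⟨c, hc⟩ := (dvd_iff (k := k) ha.ne').2 h.ge
  have hodd : c % 2 = 1 := by
    by_contra hcon
    obtain ⟨d, hd⟩ : 2 ∣ c := by omega
    have : 2 ^ (k + 1) ∣ a := ⟨d, by rw [hc, hd]; ring⟩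
    rw [dvd_iff ha.ne'] at this
    omega
  have hmod : (a + b) ≡ 2 * a [MOD 2 ^ (k + 2)] := by
    have h1 : b ≡ a [MOD 2 ^ (k + 2)] := hm.symm
    have := Nat.ModEq.add_left a h1
    rwa [← two_mul] at this
  have h2 : 2 ^ (k + 1) ∣ 2 * a := ⟨c, by rw [hc]; ring⟩
  refine v_eq (by omega) ?_ ?_
  · have h3 : 2 ^ (k + 1) ∣ 2 ^ (k + 2) := pow_dvd_pow 2 (by omega)
    exact ((hmod.dvd_iff h3).2 h2)
  · intro hd
    have h4 : 2 ^ (k + 1 + 1) ∣ 2 * a := (hmod.dvd_iff (by simp [pow_succ])).1 hd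
    have h5 : 2 ^ (k + 1) ∣ a := by
      rw [pow_succ, mul_comm (2 ^ (k + 1)) 2] at h4
      exact Nat.dvd_of_mul_dvd_mul_left (by norm_num) h4
    rw [dvd_iff ha.ne'] at h5
    omega

/-- pigeonhole for an ultrafilter -/
lemma pigeon (u : Ultrafilter ℕ) (f : ℕ → ℕ) (N : ℕ) (h : ∀ᶠ n in u, f n < N) :
    ∃ k, ∀ᶠ n in u, f n = k := by
  have h1 : ∀ᶠ n in u, ∃ k ∈ Set.Iio N, f n = k := h.mono fun n hn => ⟨f n, hn, rfl⟩
  obtain ⟨k, -, hk⟩ := (Ultrafilter.eventually_exists_mem_iff (Set.finite_Iio N)).1 h1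
  exact ⟨k, hk⟩

lemma core (u : Ultrafilter ℕ) (a lam : ℕ → ℕ) (hpos : ∀ᶠ n in u, 0 < lam n)
    (hV : ∀ B, ∀ᶠ m in u, B < padicValNat 2 (a m))
    (hp : ∀ᶠ n in u, ∀ᶠ m in u, padicValNat 2 (lam m) % 2 = padicValNat 2 (lam n + lam m) % 2 ∧
      (padicValNat 2 (a n) < padicValNat 2 (lam m) ↔ padicValNat 2 (a n) + padicValNat 2 (a m) < padicValNat 2 (lam n + lam m))) : False := by
  by_cases hb : ∃ κ, ∀ᶠ n in u, padicValNat 2 (lam n) = κ
  · obtain ⟨κ, hκ⟩ := hb
    obtain ⟨ρ, hρ⟩ := pigeon u (fun n => lam n % 2 ^ (κ + 2)) (2 ^ (κ + 2))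
      (Eventually.of_forall fun n => Nat.mod_lt _ (by positivity))
    obtain ⟨n, h1, h2, h3, h4⟩ := (hpos.and (hp.and (hκ.and hρ))).exists
    obtain ⟨m, h5, h6, h7⟩ := (h2.and (hκ.and hρ)).exists
    have := v_cong h1 h3 (h4.trans h7.symm)
    rw [this, h6] at h5
    have := h5.1
    omega
  · have hinf : ∀ B, ∀ᶠ n in u, B < padicValNat 2 (lam n) := by
      intro B
      by_contra hcon
      rw [← Ultrafilter.eventually_not] at hcon
      exact hb (pigeon u (fun n => padicValNat 2 (lam n)) (B + 1) (hcon.mono fun n hn => by omega))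
    obtain ⟨n, h1, h2⟩ := (hpos.and hp).exists
    obtain ⟨m, h3, h4, h5, h6, h7⟩ := (h2.and ((hinf (padicValNat 2 (lam n))).and ((hinf (padicValNat 2 (a n))).and
      ((hV (padicValNat 2 (lam n))).and hpos)))).exists
    have h8 := v_add h1 h7 h4
    have h9 := h3.2.1 h5
    omega

/-- the colouring -/
noncomputable def col (B x : ℕ) :
    (Fin (B + 1) → Fin (2 * B + 2)) × Fin 2 × Fin 2 × Bool × Bool × Bool :=
  (fun q => ⟨min (padicValNat q x) (2 * B + 1), by omega⟩, ⟨padicValNat 2 (Nat.log 2 x) % 2, by omega⟩,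
    ⟨padicValNat 2 (Nat.log 2 x + 1) % 2, by omega⟩, decide (padicValNat 2 x < padicValNat 2 (Nat.log 2 x)),
    decide (padicValNat 2 x < padicValNat 2 (Nat.log 2 x + 1)), decide (x = 2 ^ Nat.log 2 x))

lemma log_mul (x y : ℕ) (hx : 0 < x) (hy : 0 < y) :
    Nat.log 2 (x * y) = Nat.log 2 x + Nat.log 2 y ∨
      Nat.log 2 (x * y) = Nat.log 2 x + Nat.log 2 y + 1 := by
  have h1 := Nat.pow_log_le_self 2 hx.ne'
  have h2 := Nat.pow_log_le_self 2 hy.ne'
  have h3 := Nat.lt_pow_succ_log_self (b := 2) (by norm_num) x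
  have h4 := Nat.lt_pow_succ_log_self (b := 2) (by norm_num) y
  have h5 : 2 ^ (Nat.log 2 x + Nat.log 2 y) ≤ x * y := by
    rw [pow_add]; exact Nat.mul_le_mul h1 h2
  have h6 : x * y < 2 ^ (Nat.log 2 x + Nat.log 2 y + 2) := by
    calc x * y < 2 ^ (Nat.log 2 x + 1) * 2 ^ (Nat.log 2 y + 1) := Nat.mul_lt_mul'' h3 h4
      _ = _ := by rw [← pow_add]; congr 1; omega
  have h7 := Nat.le_log_of_pow_le (by norm_num) h5
  have h8 := Nat.log_lt_of_lt_pow (by positivity) h6
  omega

lemma unbounded_case (B : ℕ) (a : ℕ → ℕ) (ha : StrictMono a) (pos : ∀ n, 0 < a n)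
    (hV : Tendsto (fun n => padicValNat 2 (a n)) atTop atTop)
    (hc : ∀ n m, n < m → col B (a m - a n) = col B (a n * a m)) : False := by
  set u : Ultrafilter ℕ := hyperfilter ℕ with hu
  have top : ∀ {p : ℕ → Prop}, (∀ᶠ n in atTop, p n) → ∀ᶠ n in u, p n :=
    fun h => Nat.hyperfilter_le_atTop h
  have hlt : ∀ n, ∀ᶠ m in u, n < m := fun n => top (eventually_gt_atTop n)
  have hVu : ∀ C, ∀ᶠ m in u, C < padicValNat 2 (a m) := fun C => top (hV.eventually_gt_atTop C)
  have hau : ∀ C, ∀ᶠ m in u, C < a m := fun C => by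
    refine top ?_
    exact ha.tendsto_atTop.eventually_gt_atTop C
  by_cases hp : ∀ᶠ m in u, a m = 2 ^ Nat.log 2 (a m)
  · obtain ⟨n, hn⟩ := hp.exists
    obtain ⟨m, hm, hnm, hbig⟩ := (hp.and ((hlt n).and (hau (4 * a n)))).exists
    have h := hc n m hnm
    simp only [col, Prod.mk.injEq, decide_eq_decide] at h
    have h6 := h.2.2.2.2.2
    set i := Nat.log 2 (a n)
    set j := Nat.log 2 (a m)
    have h7 : a n * a m = 2 ^ (i + j) := by rw [pow_add, ← hn, ← hm]
    have h8 : a n * a m = 2 ^ Nat.log 2 (a n * a m) := by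
      rw [h7, Nat.log_pow (by norm_num)]
    have h9 := h6.2 h8
    have hij : i + 2 < j := by
      by_contra hcon
      have : 2 ^ j ≤ 2 ^ (i + 2) := Nat.pow_le_pow_right (by norm_num) (by omega)
      rw [pow_add] at this
      omega
    generalize Nat.log 2 (a m - a n) = t at h9
    rw [hm, hn] at h9
    have ht : t < j := by
      by_contra hcon
      have h10 : 2 ^ j ≤ 2 ^ t := Nat.pow_le_pow_right (by norm_num) (by omega)
      have h11 : 0 < 2 ^ i := by positivity
      have h12 : 0 < 2 ^ j := by positivity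
      omega
    have h10 : 2 ^ t ≤ 2 ^ (j - 1) := Nat.pow_le_pow_right (by norm_num) (by omega)
    have h11 : 2 ^ i ≤ 2 ^ (j - 2) := Nat.pow_le_pow_right (by norm_num) (by omega)
    have h12 : 2 ^ j = 2 * 2 ^ (j - 1) := by rw [← pow_succ']; congr 1; omega
    have h13 : 2 ^ (j - 1) = 2 * 2 ^ (j - 2) := by rw [← pow_succ']; congr 1; omega
    have h14 : 0 < 2 ^ (j - 2) := by positivity
    omega
  · rw [← Ultrafilter.eventually_not] at hp
    have hL : ∀ n, ∀ᶠ m in u, Nat.log 2 (a m - a n) = Nat.log 2 (a m) := by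
      intro n
      filter_upwards [hp, hVu (a n), hau (a n)] with m h1 h2 h3
      set l := Nat.log 2 (a m) with hl
      have h4 : 2 ^ l ≤ a m := Nat.pow_log_le_self 2 (pos m).ne'
      have h5 : a m < 2 ^ (l + 1) := Nat.lt_pow_succ_log_self (b := 2) (by norm_num) (a m)
      have h6 : 2 ^ (a n) ∣ a m := (dvd_iff (pos m).ne').2 h2.le
      have h7 : a n ≤ l := by
        have h8 : 2 ^ (a n) ≤ a m := Nat.le_of_dvd (pos m) h6
        exact Nat.le_log_of_pow_le (by norm_num) h8
      have h8 : 2 ^ (a n) ∣ 2 ^ l := pow_dvd_pow 2 h7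
      have h9 : 2 ^ (a n) ∣ a m - 2 ^ l := Nat.dvd_sub h6 h8
      have h10 : 2 ^ (a n) ≤ a m - 2 ^ l := Nat.le_of_dvd (by omega) h9
      have h11 : a n < 2 ^ (a n) := Nat.lt_two_pow_self
      refine Nat.log_eq_of_pow_le_of_lt_pow (by omega) (by omega)
    have hpair : ∀ᶠ n in u, ∀ᶠ m in u,
        (Nat.log 2 (a n * a m) = Nat.log 2 (a n) + Nat.log 2 (a m) ∨
          Nat.log 2 (a n * a m) = Nat.log 2 (a n) + Nat.log 2 (a m) + 1) :=
      Eventually.of_forall fun n => Eventually.of_forall fun m => log_mul _ _ (pos n) (pos m)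
    simp only [Ultrafilter.eventually_or] at hpair
    rcases hpair with h | h
    · refine core u a (fun n => Nat.log 2 (a n)) ?_ hVu ?_
      · filter_upwards [hau 1] with n hn
        exact Nat.log_pos (by norm_num) (by omega)
      · filter_upwards [h] with n hn
        filter_upwards [hn, hL n, hlt n, hVu (padicValNat 2 (a n))] with m h1 h2 h3 h4
        have h5 := hc n m h3
        simp only [col, Prod.mk.injEq, decide_eq_decide, Fin.mk.injEq] at h5
        rw [h1, h2, v_sub (pos n) (ha h3) h4,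
          padicValNat.mul (pos n).ne' (pos m).ne'] at h5
        exact ⟨h5.2.1, h5.2.2.2.1⟩
    · refine core u a (fun n => Nat.log 2 (a n) + 1) ?_ hVu ?_
      · exact Eventually.of_forall fun n => Nat.succ_pos _
      · filter_upwards [h] with n hn
        filter_upwards [hn, hL n, hlt n, hVu (padicValNat 2 (a n))] with m h1 h2 h3 h4
        have h5 := hc n m h3
        simp only [col, Prod.mk.injEq, decide_eq_decide, Fin.mk.injEq] at h5
        rw [h1, h2, v_sub (pos n) (ha h3) h4,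
          padicValNat.mul (pos n).ne' (pos m).ne'] at h5
        have e : Nat.log 2 (a n) + 1 + (Nat.log 2 (a m) + 1) =
          Nat.log 2 (a n) + Nat.log 2 (a m) + 1 + 1 := by ring
        simp only [e]
        exact ⟨h5.2.2.1, h5.2.2.2.2.1⟩

lemma bounded_case (B k q : ℕ) [hq : Fact q.Prime] (hqB : q ≤ B) (hk : k ≤ B) (a : ℕ → ℕ)
    (ha : StrictMono a) (pos : ∀ n, 0 < a n)
    (hV : ∃ᶠ n in atTop, padicValNat q (a n) = k)
    (hc : ∀ n m, n < m → col B (a m - a n) = col B (a n * a m)) : False := by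
  obtain ⟨φ, hφ, h1⟩ := extraction_of_frequently_atTop hV
  set u : Ultrafilter ℕ := hyperfilter ℕ with hu
  have hq0 : 0 < q := hq.out.pos
  obtain ⟨ρ, hρ⟩ := pigeon u (fun n => a (φ n) % q ^ (2 * k + 1)) (q ^ (2 * k + 1))
      (Eventually.of_forall fun n => Nat.mod_lt _ (by positivity))
  obtain ⟨n, hn⟩ := hρ.exists
  obtain ⟨m, hm, hnm⟩ := (hρ.and (Nat.hyperfilter_le_atTop (eventually_gt_atTop n))).exists
  have h2 := hc _ _ (hφ hnm)
  simp only [col, Prod.mk.injEq] at h2
  have h3 := congrFun h2.1 ⟨q, by omega⟩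
  simp only [Fin.mk.injEq] at h3
  rw [padicValNat.mul (pos _).ne' (pos _).ne', h1, h1] at h3
  have hlt : a (φ n) < a (φ m) := ha (hφ hnm)
  have h4 : q ^ (2 * k + 1) ∣ a (φ m) - a (φ n) :=
    (Nat.modEq_iff_dvd' hlt.le).1 (hn.trans hm.symm)
  rw [padicValNat_dvd_iff_le (by omega)] at h4
  omega

/-- For every `B` there is a finite colouring `c` of `ℕ` such that for every strictly increasing
sequence of positive integers with `a_m - a_n` and `a_n a_m` of the same colour for all `n < m`: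
the 2-adic valuations `v_2(a_n)` are bounded, and all but finitely many `a_n` satisfy
`v_q(a_n) > B` for all primes `q ≤ B`. -/
theorem result (B : ℕ) : ∃ (r : ℕ) (c : ℕ → Fin r), ∀ a : ℕ → ℕ, StrictMono a → (∀ n, 0 < a n) →
    (∀ n m, n < m → c (a m - a n) = c (a n * a m)) →
    (∃ M, ∀ n, padicValNat 2 (a n) ≤ M) ∧
    (∀ᶠ n in atTop, ∀ q, q.Prime → q ≤ B → B < padicValNat q (a n)) := by
  refine ⟨_, fun x => Fintype.equivFin _ (col B x), fun a ha pos hc => ?_⟩
  have hc' : ∀ n m, n < m → col B (a m - a n) = col B (a n * a m) := fun n m hnm =>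
    (Fintype.equivFin _).injective (hc n m hnm)
  constructor
  · by_contra hcon
    push Not at hcon
    have hfr : ∀ M, ∃ᶠ n in atTop, M < padicValNat 2 (a n) := by
      intro M
      rw [frequently_atTop]
      intro N
      by_contra h
      push Not at h
      obtain ⟨n, hn⟩ := hcon (M + ∑ i ∈ Finset.range N, padicValNat 2 (a i))
      rcases lt_or_ge n N with hlt | hge
      · have := Finset.single_le_sum (f := fun i => padicValNat 2 (a i)) (fun i _ => Nat.zero_le _)
          (Finset.mem_range.2 hlt)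
        omega
      · have := h n hge
        omega
    obtain ⟨φ, hφ, h1⟩ := extraction_forall_of_frequently hfr
    refine unbounded_case B (a ∘ φ) (ha.comp hφ) (fun n => pos _) ?_ (fun n m hnm => hc' _ _ (hφ hnm))
    exact tendsto_atTop_mono (fun n => (h1 n).le) tendsto_id
  · have key : ∀ q ∈ Finset.range (B + 1), ∀ᶠ n in atTop, q.Prime → B < padicValNat q (a n) := by
      intro q hqr
      by_cases hqp : q.Prime
      swap
      · exact Eventually.of_forall fun n h => absurd h hqp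
      have hq : Fact q.Prime := ⟨hqp⟩
      have hqB : q ≤ B := by
        have := Finset.mem_range.1 hqr
        omega
      by_contra hcon
      rw [Filter.not_eventually] at hcon
      have h1 : ∃ᶠ n in atTop, padicValNat q (a n) ≤ B :=
        hcon.mono fun n hn => by
          push Not at hn
          exact hn.2
      obtain ⟨φ, hφ, h2⟩ := extraction_of_frequently_atTop h1
      obtain ⟨k, hk⟩ := pigeon (hyperfilter ℕ) (fun n => padicValNat q (a (φ n))) (B + 1)
        (Eventually.of_forall fun n => by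
          have := h2 n
          omega)
      have hkB : k ≤ B := by
        obtain ⟨n, hn⟩ := hk.exists
        have := h2 n
        omega
      refine bounded_case B k q hqB hkB (a ∘ φ) (ha.comp hφ) (fun n => pos _) ?_
        (fun n m hnm => hc' _ _ (hφ hnm))
      rw [← Nat.cofinite_eq_atTop]
      intro hev
      have h4 := hyperfilter_le_cofinite hev
      obtain ⟨n, h5, h6⟩ := (hk.and h4).exists
      exact h6 h5
    have key2 := (Filter.eventually_all_finset (Finset.range (B + 1))).2 key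
    filter_upwards [key2] with n hn q hq hqB
    exact hn q (Finset.mem_range.2 (by omega)) hq

end Pool.Agent.Results.MP_741d9e_co.TwoAdicBounded
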